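import Pool.Agent.H891.EC.Basic

namespace Pool.Agent.H891.EC

open Finset Polynomial

theorem factor_of_few_roots {E : ℂ[X]} (hm : E.Monic) (h0 : E.eval 0 = 0)
    (h : #E.roots.toFinset ≤ 2) :
    ∃ (ρ k : ℕ) (r : ℂ), E = X ^ ρ * (X + C r) ^ k ∧ ρ + k = E.natDegree := by
  have hE : E ≠ 0 := hm.ne_zero
  have hprod : E = (E.roots.map (fun a => X - C a)).prod := by
    have := (IsAlgClosed.splits E).eq_prod_roots_of_monic hm
    exact this
  have hcard : Multiset.card E.roots = E.natDegree :=
    (splits_iff_card_roots.mp (IsAlgClosed.splits E))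
  have hz : (0 : ℂ) ∈ E.roots.toFinset := by
    rw [Multiset.mem_toFinset, mem_roots hE]; exact h0
  have key : ∀ s : ℂ, (∀ a ∈ E.roots, a ≠ 0 → a = s) →
      E = X ^ (Multiset.count 0 E.roots) *
        (X + C (-s)) ^ (Multiset.card (E.roots.filter (fun a => a ≠ 0))) := by
    intro s hs
    have h1 : E.roots = E.roots.filter (fun a => a = 0) + E.roots.filter (fun a => a ≠ 0) :=
      (Multiset.filter_add_not _ _).symm
    have h2 : E.roots.filter (fun a => a = 0) = Multiset.replicate (Multiset.count 0 E.roots) 0 :=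
      Multiset.filter_eq' _ _
    have h3 : E.roots.filter (fun a => a ≠ 0) =
        Multiset.replicate (Multiset.card (E.roots.filter (fun a => a ≠ 0))) s := by
      rw [Multiset.eq_replicate]
      refine ⟨rfl, fun a ha => ?_⟩
      rw [Multiset.mem_filter] at ha
      exact hs a ha.1 ha.2
    have h4 : (E.roots.map (fun a => X - C a)).prod =
        ((E.roots.filter (fun a => a = 0)).map (fun a => X - C a)).prod *
        ((E.roots.filter (fun a => a ≠ 0)).map (fun a => X - C a)).prod := by
      rw [← Multiset.prod_add, ← Multiset.map_add, ← h1]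
    rw [← hprod] at h4
    rw [h2] at h4
    rw [Multiset.map_replicate, Multiset.prod_replicate] at h4
    have h5 : ((E.roots.filter (fun a => a ≠ 0)).map (fun a => X - C a)).prod =
        (X - C s) ^ (Multiset.card (E.roots.filter (fun a => a ≠ 0))) := by
      conv_lhs => rw [h3]
      rw [Multiset.map_replicate, Multiset.prod_replicate]
    rw [h5] at h4
    rw [C_neg, ← sub_eq_add_neg]
    simpa using h4
  have hcount : Multiset.count 0 E.roots + Multiset.card (E.roots.filter (fun a => a ≠ 0)) =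
      E.natDegree := by
    rw [← hcard]
    have h1 := congrArg Multiset.card (Multiset.filter_add_not (fun a => a = (0 : ℂ)) E.roots)
    rw [Multiset.card_add, Multiset.filter_eq', Multiset.card_replicate] at h1
    exact h1
  by_cases hex : ∃ s ∈ E.roots, s ≠ 0
  · obtain ⟨s, hs, hs0⟩ := hex
    refine ⟨_, _, -s, key s ?_, hcount⟩
    intro a ha ha0
    by_contra hne
    have hsub : ({0, s, a} : Finset ℂ) ⊆ E.roots.toFinset := by
      intro x hx
      rw [mem_insert, mem_insert, mem_singleton] at hx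
      rcases hx with rfl | rfl | rfl
      · exact hz
      · exact Multiset.mem_toFinset.2 hs
      · exact Multiset.mem_toFinset.2 ha
    have h3 : #({0, s, a} : Finset ℂ) = 3 := by
      rw [card_eq_three]
      exact ⟨0, s, a, fun h => hs0 h.symm, fun h => ha0 h.symm, fun h => hne h.symm, rfl⟩
    have := card_le_card hsub
    omega
  · push Not at hex
    refine ⟨_, _, -0, key 0 ?_, hcount⟩
    intro a ha ha0
    exact hex a ha

variable {V : Type} [Fintype V] [DecidableEq V]
variable {G : SimpleGraph V} [DecidableRel G.Adj]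

theorem natDegree_poly (h1 : ∀ v, 1 ≤ G.degree v) :
    (edgeCoverPoly G).natDegree = #G.edgeFinset ∧ (edgeCoverPoly G).Monic := by
  have h2 : (edgeCoverPoly G).coeff #G.edgeFinset = 1 := by
    rw [coeff_poly, coverCount_top h1]; simp
  have h3 : (edgeCoverPoly G).natDegree ≤ #G.edgeFinset := by
    rw [natDegree_le_iff_coeff_eq_zero]
    intro N hN
    rw [coeff_poly, coverCount_gt G hN]; simp
  have h4 : (edgeCoverPoly G).natDegree = #G.edgeFinset := by
    refine le_antisymm h3 (le_natDegree_of_ne_zero ?_)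
    rw [h2]; exact one_ne_zero
  refine ⟨h4, ?_⟩
  rw [Monic, leadingCoeff, h4, h2]

omit [DecidableEq V] in
theorem sum_deg : ∑ v, G.degree v = 2 * #G.edgeFinset := G.sum_degrees_eq_twice_card_edges

omit [DecidableEq V] in
theorem card_le_edges (h2 : ∀ v, 2 ≤ G.degree v) : Fintype.card V ≤ #G.edgeFinset := by
  have h := sum_deg (G := G)
  have h3 : ∑ v : V, 2 ≤ ∑ v, G.degree v := sum_le_sum (fun v _ => h2 v)
  rw [sum_const, card_univ, smul_eq_mul] at h3
  omega

/-- Consequences of having at most two distinct roots. -/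
theorem few_roots [Nonempty V] (h2 : ∀ v, 2 ≤ G.degree v) (hex : ∃ v, G.degree v = 2)
    (h : #(edgeCoverPoly G).roots.toFinset ≤ 2) :
    ∃ k t : ℕ, #G.edgeFinset = k * t ∧ (t = 2 ∨ t = 3) ∧
      2 * #{v | G.degree v = 2} = #G.edgeFinset * (t - 1) ∧
      (∀ i, i + k < #G.edgeFinset → coverCount G i = 0) ∧
      #(covers G) = (t + 1) ^ k ∧
      (edgeCoverPoly G).eval (-1) = (-1) ^ (#G.edgeFinset - k) * ((t : ℂ) - 1) ^ k := by
  have h1 : ∀ v, 1 ≤ G.degree v := fun v => (by norm_num : 1 ≤ 2).trans (h2 v)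
  obtain ⟨hdeg, hmonic⟩ := natDegree_poly h1
  have hmn := card_le_edges h2
  have hn : 0 < Fintype.card V := Fintype.card_pos
  obtain ⟨v0, hv0⟩ := hex
  have hn3 : 3 ≤ Fintype.card V := by
    have := G.degree_lt_card_verts v0
    omega
  set m := #G.edgeFinset with hm
  have h0 : (edgeCoverPoly G).eval 0 = 0 := by
    rw [← coeff_zero_eq_eval_zero, coeff_poly]
    have : coverCount G 0 = 0 := by
      unfold coverCount
      rw [card_eq_zero, filter_eq_empty_iff]
      rintro S - ⟨hS, hS'⟩
      obtain ⟨e, he, -⟩ := hS' v0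
      rw [card_eq_zero] at hS
      rw [hS] at he
      exact absurd he (notMem_empty e)
    rw [this]; simp
  obtain ⟨ρ, k, r, hE, hρk⟩ := factor_of_few_roots hmonic h0 h
  rw [hdeg] at hρk
  have hcoeff : ∀ j, (coverCount G (ρ + j) : ℂ) = ((X + C r) ^ k : ℂ[X]).coeff j := by
    intro j
    rw [← coeff_poly, hE, add_comm ρ j, coeff_X_pow_mul]
  have hcoeff' : ∀ j, j ≤ k → (coverCount G (ρ + (k - j)) : ℂ) = r ^ j * (k.choose j) := by
    intro j hj
    rw [hcoeff, coeff_X_add_C_pow]
    have e1 : k - (k - j) = j := by omega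
    rw [e1, Nat.choose_symm hj]
  -- k is positive
  have hm1 := coverCount_m1 h2 (by omega : 1 ≤ #G.edgeFinset)
  rw [← hm] at hm1
  have hk : 1 ≤ k := by
    by_contra hk
    have hk0 : k = 0 := by omega
    have h3 : (edgeCoverPoly G).coeff (m - 1) = 0 := by
      rw [hE, hk0, pow_zero, mul_one, coeff_X_pow, if_neg (by omega)]
    rw [coeff_poly, hm1] at h3
    have : m = 0 := by exact_mod_cast h3
    omega
  have hkr : (k : ℂ) * r = m := by
    have h3 := hcoeff' 1 hk
    have e1 : ρ + (k - 1) = m - 1 := by omega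
    rw [e1, hm1, pow_one, Nat.choose_one_right] at h3
    rw [h3]; ring
  have hkC : (k : ℂ) ≠ 0 := by exact_mod_cast (by omega : k ≠ 0)
  -- k divides m
  have hdvd : k ∣ m := by
    have h3 := hcoeff' k le_rfl
    rw [Nat.sub_self, add_zero, Nat.choose_self, Nat.cast_one, mul_one] at h3
    have h4 : ((coverCount G ρ * k ^ k : ℕ) : ℂ) = ((m ^ k : ℕ) : ℂ) := by
      push_cast
      rw [h3, ← hkr, mul_pow]; ring
    have h5 : coverCount G ρ * k ^ k = m ^ k := by exact_mod_cast h4
    have h6 : k ^ k ∣ m ^ k := ⟨coverCount G ρ, by rw [← h5]; ring⟩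
    have h7 : k ≠ 0 := by omega
    exact (Nat.pow_dvd_pow_iff h7).1 h6
  obtain ⟨t, ht⟩ := hdvd
  have hrt : r = t := by
    have h3 : (k : ℂ) * r = k * t := by rw [hkr, ht]; push_cast; ring
    exact mul_left_cancel₀ hkC h3
  have ht1 : 1 ≤ t := by
    rcases Nat.eq_zero_or_pos t with h3 | h3
    · exfalso
      have h4 : m = 0 := by rw [ht, h3, Nat.mul_zero]
      omega
    · exact h3
  -- the number of vertices of degree two
  have hm2 := coverCount_m2 h2 (by omega : 2 ≤ #G.edgeFinset)
  rw [← hm] at hm2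
  set n2 := #{v | G.degree v = 2} with hn2
  have hn2le : n2 ≤ Fintype.card V := by
    rw [hn2]; exact card_le_univ _
  have hn2pos : 1 ≤ n2 := by
    rw [hn2]
    exact card_pos.2 ⟨v0, by simp [hv0]⟩
  have h2n : 2 * n2 = m * (t - 1) := by
    have h3 : (coverCount G (m - 2) : ℂ) = r ^ 2 * (k.choose 2) := by
      rcases Nat.lt_or_ge k 2 with hk2 | hk2
      · have hk1 : k = 1 := by omega
        have h4 : (edgeCoverPoly G).coeff (m - 2) = 0 := by
          rw [hE, coeff_X_pow_mul', if_neg (by omega)]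
        rw [coeff_poly] at h4
        rw [h4, hk1]; simp
      · have := hcoeff' 2 hk2
        have e1 : ρ + (k - 2) = m - 2 := by omega
        rwa [e1] at this
    have h4 : (coverCount G (m - 2) : ℂ) + n2 = m.choose 2 := by exact_mod_cast hm2
    rw [h3, Nat.cast_choose_two, Nat.cast_choose_two, hrt, ht] at h4
    push_cast at h4
    have h5 : (2 * n2 : ℂ) = (k * t) * (t - 1) := by
      linear_combination 2 * h4
    have h6 : ((2 * n2 : ℕ) : ℂ) = ((m * (t - 1) : ℕ) : ℂ) := by
      rw [ht]
      push_cast [Nat.cast_sub ht1]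
      exact h5
    exact_mod_cast h6
  have ht23 : t = 2 ∨ t = 3 := by
    have h3 : 2 * n2 ≤ 2 * m := by omega
    rw [h2n, mul_comm 2 m] at h3
    have h4 : t - 1 ≤ 2 := Nat.le_of_mul_le_mul_left h3 (by omega)
    have h5 : t ≠ 1 := by
      rintro rfl
      simp at h2n
      omega
    omega
  refine ⟨k, t, ht, ht23, h2n, ?_, ?_, ?_⟩
  · intro i hi
    have h3 : (edgeCoverPoly G).coeff i = 0 := by
      rw [hE, coeff_X_pow_mul', if_neg (by omega)]
    rw [coeff_poly] at h3
    exact_mod_cast h3
  · have h3 : (edgeCoverPoly G).eval 1 = ((t : ℂ) + 1) ^ k := by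
      rw [hE, hrt]
      simp [add_comm]
    rw [eval_one] at h3
    exact_mod_cast h3
  · have e1 : m - k = ρ := by omega
    rw [e1, hE, hrt]
    simp only [eval_mul, eval_pow, eval_X, eval_add, eval_C]
    congr 2
    ring

end Pool.Agent.H891.EC
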