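import Pool.Agent.H891.EC.Defs

namespace Pool.Agent.H891.EC

open Finset Polynomial

variable {V : Type} [Fintype V] [DecidableEq V]
variable (G : SimpleGraph V) [DecidableRel G.Adj]

/-- the set of all edge coverings -/
def covers : Finset (Finset (Sym2 V)) := {S ∈ G.edgeFinset.powerset | IsEdgeCovering S}

theorem coverCount_eq (i : ℕ) : coverCount G i = #{S ∈ covers G | S.card = i} := by
  unfold coverCount covers
  rw [filter_filter]
  congr 1
  ext S
  simp only [mem_filter]
  tauto

theorem coverCount_gt {i : ℕ} (h : #G.edgeFinset < i) : coverCount G i = 0 := by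
  unfold coverCount
  rw [card_eq_zero, filter_eq_empty_iff]
  intro S hS hS'
  have := card_le_card (mem_powerset.1 hS)
  omega

theorem coeff_poly (i : ℕ) : (edgeCoverPoly G).coeff i = coverCount G i := by
  unfold edgeCoverPoly
  rw [finsetSum_coeff]
  have h : ∀ j, ((coverCount G j : ℂ[X]) * X ^ j).coeff i = if i = j then (coverCount G j : ℂ) else 0 := by
    intro j
    rw [← C_eq_natCast, coeff_C_mul_X_pow]
  rw [sum_congr rfl (fun j _ => h j), sum_ite_eq]
  split_ifs with h1
  · rfl
  · rw [coverCount_gt]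
    · simp
    · rw [mem_range] at h1; omega

theorem poly_eq_sum : edgeCoverPoly G = ∑ S ∈ covers G, (X : ℂ[X]) ^ #S := by
  unfold edgeCoverPoly
  have h : ∀ S ∈ covers G, #S ∈ range (#G.edgeFinset + 1) := by
    intro S hS
    unfold covers at hS
    rw [mem_filter, mem_powerset] at hS
    rw [mem_range]
    exact Nat.lt_succ_of_le (card_le_card hS.1)
  rw [← Finset.sum_fiberwise_of_maps_to h]
  refine sum_congr rfl fun i _ => ?_
  rw [coverCount_eq, Finset.card_eq_sum_ones, Nat.cast_sum, sum_mul]
  refine sum_congr rfl fun S hS => ?_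
  rw [mem_filter] at hS
  rw [hS.2]; simp

theorem eval_one : (edgeCoverPoly G).eval 1 = #(covers G) := by
  rw [poly_eq_sum, eval_finsetSum]
  simp

theorem eval_neg_one : (edgeCoverPoly G).eval (-1) = ∑ S ∈ covers G, (-1 : ℂ) ^ #S := by
  rw [poly_eq_sum, eval_finsetSum]
  simp

variable {G}

theorem exists_of_not_cover {S : Finset (Sym2 V)} (hS : S ⊆ G.edgeFinset)
    (h : ¬ IsEdgeCovering S) : ∃ v, G.incidenceFinset v ⊆ G.edgeFinset \ S := by
  unfold IsEdgeCovering at h
  push Not at h
  obtain ⟨v, hv⟩ := h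
  refine ⟨v, fun e he => ?_⟩
  rw [SimpleGraph.mem_incidenceFinset] at he
  rw [mem_sdiff, SimpleGraph.mem_edgeFinset]
  exact ⟨he.1, fun h => hv e h he.2⟩

theorem not_cover_iff {S : Finset (Sym2 V)} (hS : S ⊆ G.edgeFinset) :
    ¬ IsEdgeCovering S ↔ ∃ v, G.incidenceFinset v ⊆ G.edgeFinset \ S := by
  refine ⟨exists_of_not_cover hS, ?_⟩
  rintro ⟨v, hv⟩ h
  obtain ⟨e, he, hve⟩ := h v
  have : e ∈ G.incidenceFinset v := by
    rw [SimpleGraph.mem_incidenceFinset]
    exact ⟨SimpleGraph.mem_edgeFinset.1 (hS he), hve⟩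
  exact (mem_sdiff.1 (hv this)).2 he

theorem card_sdiff_ge {S : Finset (Sym2 V)} (hS : S ⊆ G.edgeFinset) (h : ¬ IsEdgeCovering S)
    {δ : ℕ} (hδ : ∀ v, δ ≤ G.degree v) : #S + δ ≤ #G.edgeFinset := by
  obtain ⟨v, hv⟩ := exists_of_not_cover hS h
  have h1 := card_le_card hv
  rw [SimpleGraph.card_incidenceFinset_eq_degree] at h1
  have h2 := card_sdiff_add_card_eq_card hS
  have := hδ v
  omega

theorem coverCount_top (h1 : ∀ v, 1 ≤ G.degree v) : coverCount G #G.edgeFinset = 1 := by
  unfold coverCount
  have : {S ∈ G.edgeFinset.powerset | #S = #G.edgeFinset ∧ IsEdgeCovering S} = {G.edgeFinset} := by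
    ext S
    simp only [mem_filter, mem_powerset, mem_singleton]
    constructor
    · rintro ⟨h, h', -⟩
      exact eq_of_subset_of_card_le h h'.ge
    · rintro rfl
      refine ⟨Subset.refl _, rfl, ?_⟩
      by_contra hc
      have := card_sdiff_ge (Subset.refl _) hc h1
      omega
  rw [this, card_singleton]

theorem coverCount_m1 (h2 : ∀ v, 2 ≤ G.degree v) (hm : 1 ≤ #G.edgeFinset) :
    coverCount G (#G.edgeFinset - 1) = #G.edgeFinset := by
  unfold coverCount
  have : {S ∈ G.edgeFinset.powerset | #S = #G.edgeFinset - 1 ∧ IsEdgeCovering S} =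
      powersetCard (#G.edgeFinset - 1) G.edgeFinset := by
    ext S
    simp only [mem_filter, mem_powerset, mem_powersetCard]
    constructor
    · rintro ⟨h, h', -⟩
      exact ⟨h, h'⟩
    · rintro ⟨h, h'⟩
      refine ⟨h, h', ?_⟩
      by_contra hc
      have := card_sdiff_ge h hc h2
      omega
  rw [this, card_powersetCard]
  obtain ⟨m, hm'⟩ : ∃ m, #G.edgeFinset = m + 1 := ⟨#G.edgeFinset - 1, by omega⟩
  rw [hm', Nat.add_sub_cancel, Nat.choose_succ_self_right]

theorem incidence_subset (v : V) : G.incidenceFinset v ⊆ G.edgeFinset := by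
  intro e he
  rw [SimpleGraph.mem_incidenceFinset] at he
  exact SimpleGraph.mem_edgeFinset.2 he.1

theorem incidence_inj {v w : V} (hv : 2 ≤ G.degree v)
    (h : G.incidenceFinset v = G.incidenceFinset w) : v = w := by
  by_contra hne
  have h1 : G.incidenceFinset v ⊆ {s(v, w)} := by
    intro e he
    have he' : e ∈ G.incidenceFinset w := h ▸ he
    rw [SimpleGraph.mem_incidenceFinset] at he he'
    rw [mem_singleton]
    exact (Sym2.mem_and_mem_iff hne).1 ⟨he.2, he'.2⟩
  have h2 := card_le_card h1
  rw [SimpleGraph.card_incidenceFinset_eq_degree, card_singleton] at h2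
  omega

theorem coverCount_m2 (h2 : ∀ v, 2 ≤ G.degree v) (hm : 2 ≤ #G.edgeFinset) :
    coverCount G (#G.edgeFinset - 2) + #{v | G.degree v = 2} = (#G.edgeFinset).choose 2 := by
  have e1 : coverCount G (#G.edgeFinset - 2) =
      #{S ∈ powersetCard (#G.edgeFinset - 2) G.edgeFinset | IsEdgeCovering S} := by
    unfold coverCount
    congr 1
    ext S
    simp only [mem_filter, mem_powerset, mem_powersetCard]
    tauto
  have e2 : #{v | G.degree v = 2} =
      #{S ∈ powersetCard (#G.edgeFinset - 2) G.edgeFinset | ¬ IsEdgeCovering S} := by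
    apply card_bij (fun v _ => G.edgeFinset \ G.incidenceFinset v)
    · intro v hv
      rw [mem_filter] at hv
      rw [mem_filter, mem_powersetCard]
      have h3 := card_sdiff_add_card_eq_card (incidence_subset (G := G) v)
      rw [SimpleGraph.card_incidenceFinset_eq_degree, hv.2] at h3
      refine ⟨⟨sdiff_subset, by omega⟩, ?_⟩
      rw [not_cover_iff sdiff_subset]
      refine ⟨v, ?_⟩
      rw [sdiff_sdiff_right_self]
      intro e he
      exact mem_inter.2 ⟨incidence_subset v he, he⟩
    · intro v hv w hw he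
      rw [mem_filter] at hv
      apply incidence_inj (G := G) (by omega : 2 ≤ G.degree v)
      have h3 := congrArg (fun T => G.edgeFinset \ T) he
      simp only [sdiff_sdiff_right_self] at h3
      have h4 : ∀ u, G.edgeFinset ∩ G.incidenceFinset u = G.incidenceFinset u :=
        fun u => inter_eq_right.2 (incidence_subset u)
      rw [← h4 v, ← h4 w]
      exact h3
    · intro S hS
      rw [mem_filter, mem_powersetCard] at hS
      obtain ⟨⟨h3, h4⟩, h5⟩ := hS
      obtain ⟨v, hv⟩ := exists_of_not_cover h3 h5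
      have h6 := card_sdiff_add_card_eq_card h3
      have h7 : G.incidenceFinset v = G.edgeFinset \ S := by
        apply eq_of_subset_of_card_le hv
        rw [SimpleGraph.card_incidenceFinset_eq_degree]
        have := h2 v
        omega
      refine ⟨v, ?_, ?_⟩
      · rw [mem_filter]
        refine ⟨mem_univ _, ?_⟩
        rw [← SimpleGraph.card_incidenceFinset_eq_degree, h7]
        omega
      · rw [h7, sdiff_sdiff_right_self]
        exact inter_eq_right.2 h3
  rw [e1, e2, card_filter_add_card_filter_not, card_powersetCard]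
  exact Nat.choose_symm hm

end Pool.Agent.H891.EC
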