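import Pool.Agent.H891.EC.Sizes

set_option linter.unusedSectionVars false
set_option linter.unusedVariables false

namespace Pool.Agent.H891.EC

open Finset

variable {V : Type} [Fintype V] [DecidableEq V]
variable {G : SimpleGraph V} [DecidableRel G.Adj]

/-- the edges meeting O -/
def EO (G : SimpleGraph V) [DecidableRel G.Adj] (O : Finset V) : Finset (Sym2 V) :=
  {e ∈ G.edgeFinset | ∃ v ∈ O, v ∈ e}

/-- the sets of edges meeting O that cover O -/
def loc (G : SimpleGraph V) [DecidableRel G.Adj] (O : Finset V) : Finset (Finset (Sym2 V)) :=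
  {S ∈ (EO G O).powerset | ∀ v ∈ O, ∃ e ∈ S, v ∈ e}

theorem loc_one {O : Finset V} (hc : #O = 1) (hdeg : ∀ v ∈ O, G.degree v = 2) :
    #(loc G O) ≤ 3 := by
  obtain ⟨v, rfl⟩ := card_eq_one.1 hc
  have h1 : EO G {v} = G.incidenceFinset v := by
    ext e
    unfold EO
    rw [mem_filter, SimpleGraph.mem_incidenceFinset, SimpleGraph.mem_edgeFinset]
    simp [SimpleGraph.incidenceSet]
  have h2 : loc G {v} ⊆ ((EO G {v}).powerset).erase ∅ := by
    intro S hS
    unfold loc at hS
    rw [mem_filter] at hS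
    rw [mem_erase]
    refine ⟨?_, hS.1⟩
    rintro rfl
    obtain ⟨e, he, -⟩ := hS.2 v (mem_singleton_self v)
    exact notMem_empty _ he
  have h3 := card_le_card h2
  rw [card_erase_of_mem (empty_mem_powerset _), card_powerset, h1,
    SimpleGraph.card_incidenceFinset_eq_degree, hdeg v (mem_singleton_self v)] at h3
  exact h3

/-- the admissible patterns on a pendant triangle -/
def pat : Finset (Bool × Bool × Bool × Bool) :=
  {x | (x.1 ∨ x.2.1 ∨ x.2.2.2) ∧ (x.1 ∨ x.2.2.1) ∧ (x.2.1 ∨ x.2.2.1)}

theorem card_pat : pat.card = 9 := by decide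

theorem loc_three {A O : Finset V} (h2 : ∀ v, 2 ≤ G.degree v) (hcl : Closed G A O)
    (hc : #O = 3) (hex : ex G O = 1) (had : ad G O A = 1) : #(loc G O) ≤ 9 := by
  have hsum := sum_deg_closed hcl
  rw [sum_deg_ex h2 O, hex, hc, had] at hsum
  have hOO : ad G O O = 6 := by omega
  have hnb : ∀ v ∈ O, nb G v O ≤ 2 := by
    intro v hv
    have := nb_le_erase (G := G) hv
    omega
  have hnb2 : ∀ v ∈ O, nb G v O = 2 := by
    have h3 : ∑ v ∈ O, nb G v O = ∑ v ∈ O, 2 := by
      rw [sum_const, hc]
      exact hOO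
    exact (sum_eq_sum_iff_of_le hnb).1 h3
  have hadj : ∀ u ∈ O, ∀ v ∈ O, u ≠ v → G.Adj u v := by
    intro u hu v hv huv
    have h3 : {w ∈ O | G.Adj u w} = O.erase u := by
      apply eq_of_subset_of_card_le
      · intro w hw
        rw [mem_filter] at hw
        exact mem_erase.2 ⟨hw.2.ne', hw.1⟩
      · have h4 := hnb2 u hu
        unfold nb at h4
        rw [h4]
        have h5 := card_erase_add_one hu
        omega
    have h4 : v ∈ {w ∈ O | G.Adj u w} := by
      rw [h3]; exact mem_erase.2 ⟨huv.symm, hv⟩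
    exact (mem_filter.1 h4).2
  obtain ⟨p, hp, hp2⟩ : ∃ v ∈ O, 0 < G.degree v - 2 := by
    by_contra hcon
    push Not at hcon
    have : ex G O = 0 := by
      unfold ex
      exact sum_eq_zero (fun v hv => Nat.le_zero.1 (hcon v hv))
    omega
  have hpd := deg_closed hcl hp
  rw [hnb2 p hp] at hpd
  have hpA : nb G p A = 1 := by
    have := nb_le_ad (G := G) (A := A) hp
    omega
  have hoth : ∀ v ∈ O, v ≠ p → nb G v A = 0 := by
    intro v hv hvp
    have h3 : ad G O A = nb G p A + ∑ w ∈ O.erase p, nb G w A := by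
      unfold ad
      exact (add_sum_erase O (fun w => nb G w A) hp).symm
    have h4 : ∑ w ∈ O.erase p, nb G w A = 0 := by omega
    exact (sum_eq_zero_iff.1 h4) v (mem_erase.2 ⟨hvp, hv⟩)
  obtain ⟨a', ha'⟩ := card_eq_one.1 hpA
  have hce : #(O.erase p) = 2 := by
    have := card_erase_add_one hp
    omega
  obtain ⟨q, r, hqr, hqr2⟩ := card_eq_two.1 hce
  have hO : ∀ x, x ∈ O ↔ x = p ∨ x = q ∨ x = r := by
    intro x
    by_cases hx : x = p
    · simp [hx, hp]
    · have h3 : x ∈ O.erase p ↔ x ∈ O := by simp [hx]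
      rw [← h3, hqr2, mem_insert, mem_singleton]
      simp [hx]
  have hq : q ∈ O := (hO q).2 (Or.inr (Or.inl rfl))
  have hr : r ∈ O := (hO r).2 (Or.inr (Or.inr rfl))
  have hqp : q ≠ p := by
    have : q ∈ O.erase p := by rw [hqr2]; exact mem_insert_self _ _
    exact (mem_erase.1 this).1
  have hrp : r ≠ p := by
    have : r ∈ O.erase p := by rw [hqr2]; exact mem_insert_of_mem (mem_singleton_self _)
    exact (mem_erase.1 this).1
  have ha'A : a' ∈ A := by
    have : a' ∈ {u ∈ A | G.Adj p u} := by rw [ha']; exact mem_singleton_self _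
    exact (mem_filter.1 this).1
  have ha'O : a' ∉ O := fun h => disjoint_left.1 hcl.1 h ha'A
  have ha'q : a' ≠ q := fun h => ha'O (h ▸ hq)
  have ha'r : a' ≠ r := fun h => ha'O (h ▸ hr)
  have hEO : ∀ e ∈ EO G O, e = s(p, q) ∨ e = s(p, r) ∨ e = s(q, r) ∨ e = s(p, a') := by
    intro e he
    unfold EO at he
    rw [mem_filter, SimpleGraph.mem_edgeFinset] at he
    obtain ⟨he1, x, hx, hxe⟩ := he
    obtain ⟨y, rfl⟩ := hxe
    have hxy : G.Adj x y := he1
    rcases hcl.2 x hx y hxy with hy | hy
    · rw [hO] at hx hy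
      have hne := hxy.ne
      rcases hx with rfl | rfl | rfl <;> rcases hy with rfl | rfl | rfl <;>
        first
        | exact absurd rfl hne
        | exact Or.inl rfl
        | exact Or.inr (Or.inl rfl)
        | exact Or.inr (Or.inr (Or.inl rfl))
        | exact Or.inl Sym2.eq_swap
        | exact Or.inr (Or.inl Sym2.eq_swap)
        | exact Or.inr (Or.inr (Or.inl Sym2.eq_swap))
    · have hxp : x = p := by
        by_contra hxp
        have h3 := hoth x hx hxp
        unfold nb at h3
        rw [card_eq_zero] at h3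
        have h4 : y ∈ {u ∈ A | G.Adj x u} := mem_filter.2 ⟨hy, hxy⟩
        rw [h3] at h4
        exact notMem_empty _ h4
      subst hxp
      have h4 : y ∈ {u ∈ A | G.Adj x u} := mem_filter.2 ⟨hy, hxy⟩
      rw [ha', mem_singleton] at h4
      rw [h4]
      exact Or.inr (Or.inr (Or.inr rfl))
  rw [← card_pat]
  apply card_le_card_of_injOn (fun S => (decide (s(p, q) ∈ S), decide (s(p, r) ∈ S),
    decide (s(q, r) ∈ S), decide (s(p, a') ∈ S)))
  · intro S hS
    have hS' := mem_coe.1 hS
    unfold loc at hS'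
    rw [mem_filter, mem_powerset] at hS'
    obtain ⟨hS1, hS2⟩ := hS'
    rw [mem_coe]
    unfold pat
    simp only [mem_filter, mem_univ, true_and, decide_eq_true_eq]
    refine ⟨?_, ?_, ?_⟩
    · obtain ⟨e, he, hpe⟩ := hS2 p hp
      rcases hEO e (hS1 he) with rfl | rfl | rfl | rfl
      · exact Or.inl he
      · exact Or.inr (Or.inl he)
      · rw [Sym2.mem_iff] at hpe
        rcases hpe with h | h
        · exact absurd h.symm hqp
        · exact absurd h.symm hrp
      · exact Or.inr (Or.inr he)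
    · obtain ⟨e, he, hpe⟩ := hS2 q hq
      rcases hEO e (hS1 he) with rfl | rfl | rfl | rfl
      · exact Or.inl he
      · rw [Sym2.mem_iff] at hpe
        rcases hpe with h | h
        · exact absurd h hqp
        · exact absurd h hqr
      · exact Or.inr he
      · rw [Sym2.mem_iff] at hpe
        rcases hpe with h | h
        · exact absurd h hqp
        · exact absurd h.symm ha'q
    · obtain ⟨e, he, hpe⟩ := hS2 r hr
      rcases hEO e (hS1 he) with rfl | rfl | rfl | rfl
      · rw [Sym2.mem_iff] at hpe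
        rcases hpe with h | h
        · exact absurd h hrp
        · exact absurd h.symm hqr
      · exact Or.inl he
      · exact Or.inr he
      · rw [Sym2.mem_iff] at hpe
        rcases hpe with h | h
        · exact absurd h hrp
        · exact absurd h.symm ha'r
  · intro S hS S' hS' heq
    have hS1 := mem_powerset.1 (mem_filter.1 (mem_coe.1 hS)).1
    have hS1' := mem_powerset.1 (mem_filter.1 (mem_coe.1 hS')).1
    simp only [Prod.mk.injEq, decide_eq_decide] at heq
    obtain ⟨h3, h4, h5, h6⟩ := heq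
    ext e
    constructor
    · intro he
      rcases hEO e (hS1 he) with rfl | rfl | rfl | rfl
      · exact h3.1 he
      · exact h4.1 he
      · exact h5.1 he
      · exact h6.1 he
    · intro he
      rcases hEO e (hS1' he) with rfl | rfl | rfl | rfl
      · exact h3.2 he
      · exact h4.2 he
      · exact h5.2 he
      · exact h6.2 he

theorem no_inner {A : Finset V} (h : ad G A A = 0) {x y : V} (hxy : G.Adj x y) :
    x ∉ A ∨ y ∉ A := by
  by_contra hcon
  push Not at hcon
  obtain ⟨hx, hy⟩ := hcon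
  have h1 : nb G x A ≤ ad G A A := nb_le_ad hx
  have h2 : 0 < nb G x A := card_pos.2 ⟨y, mem_filter.2 ⟨hy, hxy⟩⟩
  omega

theorem covers_lt (h2 : ∀ v, 2 ≤ G.degree v) {A : Finset V} {F : Finset (Finset V)}
    (hA : A.Nonempty) (hP : Part G A F) (hAA : ad G A A = 0) :
    #(covers G) < ∏ O ∈ F, #(loc G O) := by
  obtain ⟨hne, hdisj, hcl, hun⟩ := hP
  have hmem : ∀ x, x ∉ A → ∃ O ∈ F, x ∈ O := by
    intro x hx
    have h1 : x ∈ F.biUnion id := by
      rw [← hun]; exact mem_sdiff.2 ⟨mem_univ _, hx⟩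
    obtain ⟨O, hO, h⟩ := mem_biUnion.1 h1
    exact ⟨O, hO, h⟩
  set Sc : Finset (Finset (Sym2 V)) := {S ∈ G.edgeFinset.powerset | ∀ v, v ∉ A → ∃ e ∈ S, v ∈ e}
    with hSc
  have h1 : #(covers G) < #Sc := by
    apply card_lt_card
    rw [ssubset_iff_subset_ne]
    constructor
    · intro S hS
      unfold covers at hS
      rw [mem_filter] at hS
      rw [hSc, mem_filter]
      exact ⟨hS.1, fun v _ => hS.2 v⟩
    · intro heq
      obtain ⟨a, ha⟩ := hA
      have h3 : G.edgeFinset \ G.incidenceFinset a ∈ Sc := by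
        rw [hSc, mem_filter, mem_powerset]
        refine ⟨sdiff_subset, fun v hv => ?_⟩
        have hva : v ≠ a := fun h => hv (h ▸ ha)
        have h4 : 1 < #(G.neighborFinset v) := by
          rw [SimpleGraph.card_neighborFinset_eq_degree]
          exact h2 v
        obtain ⟨u, hu, hua⟩ := exists_mem_ne h4 a
        rw [SimpleGraph.mem_neighborFinset] at hu
        refine ⟨s(v, u), ?_, Sym2.mem_mk_left _ _⟩
        rw [mem_sdiff, SimpleGraph.mem_edgeFinset, SimpleGraph.mem_incidenceFinset]
        refine ⟨hu, fun h => ?_⟩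
        have h5 := h.2
        rw [Sym2.mem_iff] at h5
        rcases h5 with h5 | h5
        · exact hva h5.symm
        · exact hua h5.symm
      rw [← heq] at h3
      unfold covers at h3
      rw [mem_filter] at h3
      obtain ⟨e, he, hae⟩ := h3.2 a
      rw [mem_sdiff, SimpleGraph.mem_edgeFinset, SimpleGraph.mem_incidenceFinset] at he
      exact he.2 ⟨he.1, hae⟩
  refine h1.trans_le ?_
  rw [← card_pi]
  apply card_le_card_of_injOn (fun S => fun O _ => S ∩ EO G O)
  · intro S hS
    have hS' := mem_coe.1 hS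
    rw [hSc, mem_filter, mem_powerset] at hS'
    rw [mem_coe, mem_pi]
    intro O hO
    unfold loc
    rw [mem_filter, mem_powerset]
    refine ⟨inter_subset_right, fun v hv => ?_⟩
    have hvA : v ∉ A := fun h => disjoint_left.1 (hcl O hO).1 hv h
    obtain ⟨e, he, hve⟩ := hS'.2 v hvA
    refine ⟨e, ?_, hve⟩
    rw [mem_inter]
    refine ⟨he, ?_⟩
    unfold EO
    rw [mem_filter]
    exact ⟨hS'.1 he, v, hv, hve⟩
  · have key : ∀ S S' : Finset (Sym2 V), S ⊆ G.edgeFinset →
        (∀ O ∈ F, S ∩ EO G O = S' ∩ EO G O) → S ⊆ S' := by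
      intro S S' hS heq e he
      have heE := hS he
      induction e using Sym2.ind with
      | _ x y =>
        have hxy : G.Adj x y := SimpleGraph.mem_edgeFinset.1 heE
        have hz : ∃ z, z ∉ A ∧ z ∈ s(x, y) := by
          rcases no_inner hAA hxy with h | h
          · exact ⟨x, h, Sym2.mem_mk_left _ _⟩
          · exact ⟨y, h, Sym2.mem_mk_right _ _⟩
        obtain ⟨z, hz, hze⟩ := hz
        obtain ⟨O, hO, hzO⟩ := hmem z hz
        have h3 : s(x, y) ∈ S ∩ EO G O := by
          rw [mem_inter]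
          refine ⟨he, ?_⟩
          unfold EO
          rw [mem_filter]
          exact ⟨heE, z, hzO, hze⟩
        rw [heq O hO] at h3
        exact (mem_inter.1 h3).1
    intro S hS S' hS' heq
    have hS1 := mem_powerset.1 (mem_filter.1 (mem_coe.1 hS)).1
    have hS1' := mem_powerset.1 (mem_filter.1 (mem_coe.1 hS')).1
    have h3 : ∀ O ∈ F, S ∩ EO G O = S' ∩ EO G O := by
      intro O hO
      exact congrFun (congrFun heq O) hO
    exact Subset.antisymm (key S S' hS1 h3) (key S' S hS1' (fun O hO => (h3 O hO).symm))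

/-- The case t = 2 with m - n at least two is impossible. -/
theorem case_two (hG : G.Connected) (h2 : ∀ v, 2 ≤ G.degree v) {k d : ℕ}
    (hm : #G.edgeFinset = 2 * k) (hn : Fintype.card V + d = #G.edgeFinset) (hd : 2 ≤ d)
    (hn2 : #{v | G.degree v = 2} = k)
    (hc : ∀ S ∈ covers G, k ≤ #S) : #(covers G) < 3 ^ k := by
  obtain ⟨A, F, hA, hP, hF, hAA, hq⟩ := case_two_struct hG h2 hm hn hd hc
  obtain ⟨h3, h4⟩ := sizes hG h2 hm hn hn2 hA hP hF hq
  refine (covers_lt h2 hA hP hAA).trans_le ?_
  rw [← h4, ← prod_pow_eq_pow_sum]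
  apply prod_le_prod' 
  intro O hO
  obtain ⟨h5, h6, h7⟩ := h3 O hO
  have h8 := hq O hO
  rcases Nat.eq_zero_or_pos (ex G O) with h9 | h9
  · rw [h9] at h5 ⊢
    refine (loc_one (by omega) ?_).trans (by norm_num)
    intro v hv
    have h10 : ∀ w ∈ O, G.degree w - 2 = 0 := by
      unfold ex at h9
      exact sum_eq_zero_iff.1 h9
    have := h10 v hv
    have := h2 v
    omega
  · have h10 : ex G O = 1 := by omega
    rw [h10] at h5 h8 ⊢
    exact (loc_three h2 (hP.2.2.1 O hO) (by omega) h10 (by omega)).trans (by norm_num)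

end Pool.Agent.H891.EC
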