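import Pool.Agent.H891.EC.Alg
import Pool.Agent.H168DD.TB

set_option linter.unusedSectionVars false
set_option linter.unusedVariables false

namespace Pool.Agent.H891.EC

open Finset

variable {V : Type} [Fintype V] [DecidableEq V]
variable {G : SimpleGraph V} [DecidableRel G.Adj]

theorem cover_of_matching (h1 : ∀ v, 1 ≤ G.degree v) (U : Finset V) (m : V → V)
    (hm : ∀ x ∈ univ \ U, m x ∈ univ \ U ∧ m (m x) = x ∧ G.Adj x (m x)) :
    ∃ S ∈ covers G, 2 * #S ≤ Fintype.card V + #U := by
  have hf : ∀ v, ∃ w, G.Adj v w := by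
    intro v
    have h := h1 v
    rw [← SimpleGraph.card_neighborFinset_eq_degree] at h
    obtain ⟨w, hw⟩ := card_pos.1 h
    exact ⟨w, (SimpleGraph.mem_neighborFinset _ _ _).1 hw⟩
  choose f hf using hf
  set S1 := (univ \ U).image (fun x => s(x, m x)) with hS1
  set S2 := U.image (fun x => s(x, f x)) with hS2
  refine ⟨S1 ∪ S2, ?_, ?_⟩
  · unfold covers
    rw [mem_filter, mem_powerset]
    constructor
    · intro e he
      rw [mem_union] at he
      rcases he with he | he
      · obtain ⟨x, hx, rfl⟩ := mem_image.1 he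
        rw [SimpleGraph.mem_edgeFinset]
        exact (hm x hx).2.2
      · obtain ⟨x, hx, rfl⟩ := mem_image.1 he
        rw [SimpleGraph.mem_edgeFinset]
        exact hf x
    · intro v
      by_cases hv : v ∈ U
      · exact ⟨s(v, f v), mem_union_right _ (mem_image_of_mem _ hv), Sym2.mem_mk_left _ _⟩
      · have hv' : v ∈ univ \ U := by simp [hv]
        exact ⟨s(v, m v), mem_union_left _ (mem_image_of_mem _ hv'), Sym2.mem_mk_left _ _⟩
  · have hc1 : 2 * #S1 ≤ #(univ \ U) := by
      apply mul_card_image_le_card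
      intro e he
      obtain ⟨x, hx, rfl⟩ := mem_image.1 he
      obtain ⟨h2, h3, h4⟩ := hm x hx
      have hsub : ({x, m x} : Finset V) ⊆ {y ∈ univ \ U | s(y, m y) = s(x, m x)} := by
        intro y hy
        rw [mem_insert, mem_singleton] at hy
        rw [mem_filter]
        rcases hy with rfl | rfl
        · exact ⟨hx, rfl⟩
        · refine ⟨h2, ?_⟩
          rw [h3]; exact Sym2.eq_swap
      have h5 : #({x, m x} : Finset V) = 2 := card_pair h4.ne
      rw [← h5]
      exact card_le_card hsub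
    have hc2 : #S2 ≤ #U := card_image_le
    have hc3 : #(S1 ∪ S2) ≤ #S1 + #S2 := card_union_le _ _
    have hc4 : #(univ \ U) + #U = Fintype.card V := by
      rw [card_sdiff_add_card_eq_card (subset_univ U), card_univ]
    omega

/-- If every covering has at least c edges, the Tutte-Berge condition fails. -/
theorem exists_violator (h1 : ∀ v, 1 ≤ G.degree v) {c l : ℕ} (hc : ∀ S ∈ covers G, c ≤ #S)
    (heven : Even (Fintype.card V + l)) (hlt : Fintype.card V + l < 2 * c) :
    ∃ (A : Finset V) (F : Finset (Finset V)), (∀ O ∈ F, Odd #O) ∧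
      (∀ O ∈ F, ∀ O' ∈ F, O ≠ O' → Disjoint O O') ∧ (∀ O ∈ F, Disjoint O A) ∧
      (∀ O ∈ F, ∀ x ∈ O, ∀ y, G.Adj x y → y ∈ O ∨ y ∈ A) ∧ #A + l < #F := by
  by_contra hcon
  push Not at hcon
  have h := H168DD.tutte_berge G univ l (by rw [card_univ]; exact heven) (by
    intro A F _ hodd hdisj hsub hcl
    apply hcon A F hodd hdisj
    · intro O hO
      rw [disjoint_left]
      intro x hx hxA
      exact (mem_sdiff.1 (hsub O hO hx)).2 hxA
    · intro O hO x hx y hxy
      exact hcl O hO x hx y (mem_univ y) hxy)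
  obtain ⟨U, m, -, hU, hm⟩ := h
  obtain ⟨S, hS, hS2⟩ := cover_of_matching h1 U m hm
  have := hc S hS
  omega

/-! ### counting adjacencies -/

/-- number of neighbours of v in Y -/
def nb (G : SimpleGraph V) [DecidableRel G.Adj] (v : V) (Y : Finset V) : ℕ := #{u ∈ Y | G.Adj v u}

/-- number of adjacent pairs in X x Y -/
def ad (G : SimpleGraph V) [DecidableRel G.Adj] (X Y : Finset V) : ℕ := ∑ v ∈ X, nb G v Y

theorem nb_univ (v : V) : nb G v univ = G.degree v := by
  unfold nb
  rw [← SimpleGraph.card_neighborFinset_eq_degree]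
  congr 1
  ext u
  simp

theorem nb_union {v : V} {Y Z : Finset V} (h : Disjoint Y Z) :
    nb G v (Y ∪ Z) = nb G v Y + nb G v Z := by
  unfold nb
  rw [filter_union, card_union_of_disjoint (disjoint_filter_filter h)]

theorem ad_comm (X Y : Finset V) : ad G X Y = ad G Y X := by
  unfold ad nb
  refine (sum_card_bipartiteAbove_eq_sum_card_bipartiteBelow (s := X) (t := Y)
    (fun a b => G.Adj a b)).trans ?_
  apply sum_congr rfl
  intro v _
  congr 1
  ext u
  simp [bipartiteBelow, G.adj_comm]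

theorem ad_self_even (X : Finset V) : Even (ad G X X) := by
  have h1 : ad G X X = #{p ∈ X ×ˢ X | G.Adj p.1 p.2} := by
    unfold ad nb
    rw [card_filter, sum_product]
    apply sum_congr rfl
    intro v _
    rw [card_filter]
  rw [h1]
  have h2 : ∑ p ∈ {p ∈ X ×ˢ X | G.Adj p.1 p.2}, (1 : ZMod 2) = 0 := by
    apply sum_involution (fun p _ => (p.2, p.1))
    · intro p _
      decide
    · intro p hp _ h
      rw [mem_filter] at hp
      have h3 : p.2 = p.1 := congrArg Prod.fst h
      exact hp.2.ne h3.symm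
    · intro p hp
      rw [mem_filter, mem_product] at hp ⊢
      exact ⟨⟨hp.1.2, hp.1.1⟩, hp.2.symm⟩
    · intro p hp
      rfl
  rw [sum_const, nsmul_eq_mul, mul_one] at h2
  rw [even_iff_two_dvd]
  exact (ZMod.natCast_eq_zero_iff _ _).1 h2

/-- O is a union of components of G - A -/
def Closed (G : SimpleGraph V) (A O : Finset V) : Prop :=
  Disjoint O A ∧ ∀ x ∈ O, ∀ y, G.Adj x y → y ∈ O ∨ y ∈ A

theorem deg_closed {A O : Finset V} (h : Closed G A O) {v : V} (hv : v ∈ O) :
    G.degree v = nb G v O + nb G v A := by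
  rw [← nb_union h.1, ← nb_univ]
  unfold nb
  congr 1
  ext u
  simp only [mem_filter, mem_univ, true_and, mem_union]
  constructor
  · intro hu; exact ⟨h.2 v hv u hu, hu⟩
  · intro hu; exact hu.2

theorem sum_deg_closed {A O : Finset V} (h : Closed G A O) :
    ∑ v ∈ O, G.degree v = ad G O O + ad G O A := by
  unfold ad
  rw [← sum_add_distrib]
  exact sum_congr rfl (fun v hv => deg_closed h hv)

/-- the excess of a set -/
def ex (G : SimpleGraph V) [DecidableRel G.Adj] (O : Finset V) : ℕ := ∑ v ∈ O, (G.degree v - 2)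

theorem sum_deg_ex (h2 : ∀ v, 2 ≤ G.degree v) (O : Finset V) :
    ∑ v ∈ O, G.degree v = ex G O + 2 * #O := by
  unfold ex
  rw [mul_comm, ← smul_eq_mul, ← sum_const, ← sum_add_distrib]
  refine sum_congr rfl (fun v _ => ?_)
  have := h2 v
  omega

theorem q_even (h2 : ∀ v, 2 ≤ G.degree v) {A O : Finset V} (h : Closed G A O) :
    Even (ex G O + ad G O A) := by
  have e1 := sum_deg_closed h
  have e2 := sum_deg_ex h2 O
  obtain ⟨t, ht⟩ := ad_self_even (G := G) O
  rw [Nat.even_iff]
  omega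

theorem exists_adj_out (hG : G.Connected) {O : Finset V} (hO : O.Nonempty) (hO' : O ≠ univ) :
    ∃ x ∈ O, ∃ y, y ∉ O ∧ G.Adj x y := by
  obtain ⟨u, hu⟩ := hO
  obtain ⟨w, hw⟩ : ∃ w, w ∉ O := by
    by_contra h
    push Not at h
    exact hO' (eq_univ_iff_forall.2 h)
  obtain ⟨p⟩ := hG.preconnected u w
  obtain ⟨d, -, hd1, hd2⟩ := p.exists_boundary_dart (O : Set V) hu hw
  exact ⟨d.fst, hd1, d.snd, hd2, d.adj⟩

theorem ad_pos (hG : G.Connected) {A O : Finset V} (hA : A.Nonempty) (hO : O.Nonempty)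
    (h : Closed G A O) : 1 ≤ ad G O A := by
  have hne : O ≠ univ := by
    rintro rfl
    obtain ⟨a, ha⟩ := hA
    exact disjoint_left.1 h.1 (mem_univ a) ha
  obtain ⟨x, hx, y, hy, hxy⟩ := exists_adj_out hG hO hne
  have hyA : y ∈ A := (h.2 x hx y hxy).resolve_left hy
  have h1 : 1 ≤ nb G x A := card_pos.2 ⟨y, mem_filter.2 ⟨hyA, hxy⟩⟩
  exact h1.trans (single_le_sum (f := fun v => nb G v A) (fun _ _ => Nat.zero_le _) hx)

theorem q_ge (hG : G.Connected) (h2 : ∀ v, 2 ≤ G.degree v) {A O : Finset V} (hA : A.Nonempty)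
    (hO : O.Nonempty) (h : Closed G A O) : 2 ≤ ex G O + ad G O A := by
  have h3 := ad_pos hG hA hO h
  obtain ⟨t, ht⟩ := q_even h2 h
  omega

/-- The main identity. -/
theorem main_identity (h2 : ∀ v, 2 ≤ G.degree v) {A : Finset V} {F : Finset (Finset V)}
    (hdisj : ∀ O ∈ F, ∀ O' ∈ F, O ≠ O' → Disjoint O O') (hcl : ∀ O ∈ F, Closed G A O)
    (hun : univ \ A = F.biUnion id) :
    2 * #G.edgeFinset + 2 * #A = 2 * Fintype.card V + ad G A A +
      ∑ O ∈ F, (ex G O + ad G O A) := by
  have hd : Set.PairwiseDisjoint (F : Set (Finset V)) id := by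
    intro O hO O' hO' hne
    exact hdisj O hO O' hO' hne
  have e1 : ∑ v, G.degree v = ∑ v ∈ A, G.degree v + ∑ v ∈ univ \ A, G.degree v := by
    rw [add_comm, sum_sdiff (subset_univ A)]
  have e2 : ∑ v ∈ A, G.degree v = ad G A A + ad G A (univ \ A) := by
    unfold ad
    rw [← sum_add_distrib]
    refine sum_congr rfl (fun v _ => ?_)
    rw [← nb_union disjoint_sdiff, union_sdiff_of_subset (subset_univ A), nb_univ]
  have e3 : ad G A (univ \ A) = ∑ O ∈ F, ad G O A := by
    rw [ad_comm, hun]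
    unfold ad
    rw [sum_biUnion hd]
    rfl
  have e4 : ∑ v ∈ univ \ A, G.degree v = ∑ O ∈ F, (ex G O + 2 * #O) := by
    rw [hun, sum_biUnion hd]
    exact sum_congr rfl (fun O _ => sum_deg_ex h2 O)
  have e5 : #(univ \ A) = ∑ O ∈ F, #O := by
    rw [hun, card_biUnion (fun O hO O' hO' hne => hd hO hO' hne)]
    rfl
  have e6 : #(univ \ A) + #A = Fintype.card V := by
    rw [card_sdiff_add_card_eq_card (subset_univ A), card_univ]
  have e7 := sum_deg (G := G)
  rw [sum_add_distrib] at e4 ⊢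
  rw [← mul_sum] at e4
  omega

end Pool.Agent.H891.EC
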