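import Mathlib

/-!
Definitions for MP_2a9600_co (distinct roots of edge cover polynomials).
-/

namespace Pool.Agent.H891.EC

open Finset Polynomial

variable {V : Type} [Fintype V] [DecidableEq V]

/-- S is an edge covering set: every vertex is an endpoint of at least one edge of S. -/
def IsEdgeCovering (S : Finset (Sym2 V)) : Prop := ∀ v : V, ∃ e ∈ S, v ∈ e

instance (S : Finset (Sym2 V)) : Decidable (IsEdgeCovering S) := by
  unfold IsEdgeCovering; infer_instance

/-- e(G, i): the number of edge covering sets of G with exactly i edges. -/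
def coverCount (G : SimpleGraph V) [DecidableRel G.Adj] (i : ℕ) : ℕ :=
  #{S ∈ G.edgeFinset.powerset | S.card = i ∧ IsEdgeCovering S}

/-- The edge cover polynomial E(G, x). -/
noncomputable def edgeCoverPoly (G : SimpleGraph V) [DecidableRel G.Adj] : ℂ[X] :=
  ∑ i ∈ range (#G.edgeFinset + 1), (coverCount G i : ℂ[X]) * X ^ i

end Pool.Agent.H891.EC
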