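import Pool.Agent.H891.EC.Struct

set_option linter.unusedSectionVars false
set_option linter.unusedVariables false

namespace Pool.Agent.H891.EC

open Finset

variable {V : Type} [Fintype V] [DecidableEq V]
variable {G : SimpleGraph V} [DecidableRel G.Adj]

theorem n2_of_ex {O : Finset V} (h2 : ∀ v, 2 ≤ G.degree v) (h : ex G O ≤ 1) :
    #{v ∈ O | G.degree v = 2} + ex G O = #O := by
  have h1 : #{v ∈ O | G.degree v = 2} + #{v ∈ O | ¬ G.degree v = 2} = #O :=
    card_filter_add_card_filter_not _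
  have h3 : #{v ∈ O | ¬ G.degree v = 2} ≤ ex G O := by
    unfold ex
    rw [card_filter]
    refine sum_le_sum (fun v _ => ?_)
    have := h2 v
    split_ifs with h4
    · omega
    · omega
  have h5 : ex G O ≤ #{v ∈ O | ¬ G.degree v = 2} := by
    rcases Nat.eq_zero_or_pos (ex G O) with h6 | h6
    · omega
    · have h7 : ∃ v ∈ O, 0 < G.degree v - 2 := by
        by_contra hcon
        push Not at hcon
        have : ex G O = 0 := by
          unfold ex
          exact sum_eq_zero (fun v hv => Nat.le_zero.1 (hcon v hv))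
        omega
      obtain ⟨v, hv, hv2⟩ := h7
      have : 0 < #{v ∈ O | ¬ G.degree v = 2} :=
        card_pos.2 ⟨v, mem_filter.2 ⟨hv, by omega⟩⟩
      omega
  omega

theorem nb_le_erase {v : V} {O : Finset V} (hv : v ∈ O) : nb G v O + 1 ≤ #O := by
  have h1 : nb G v O ≤ #(O.erase v) := by
    unfold nb
    apply card_le_card
    intro u hu
    rw [mem_filter] at hu
    exact mem_erase.2 ⟨hu.2.ne', hu.1⟩
  have h2 := card_erase_add_one hv
  omega

theorem nb_le_ad {v : V} {O A : Finset V} (hv : v ∈ O) : nb G v A ≤ ad G O A :=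
  single_le_sum (f := fun v => nb G v A) (fun _ _ => Nat.zero_le _) hv

theorem card_ge_of_ex {A O : Finset V} (hO : O.Nonempty) (hcl : Closed G A O)
    (hq : ex G O + ad G O A = 2) (had : 1 ≤ ad G O A) : 1 + 2 * ex G O ≤ #O := by
  rcases Nat.eq_zero_or_pos (ex G O) with h6 | h6
  · have := card_pos.2 hO
    omega
  · have h7 : ∃ v ∈ O, 0 < G.degree v - 2 := by
      by_contra hcon
      push Not at hcon
      have : ex G O = 0 := by
        unfold ex
        exact sum_eq_zero (fun v hv => Nat.le_zero.1 (hcon v hv))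
      omega
    obtain ⟨v, hv, hv2⟩ := h7
    have h8 := deg_closed hcl hv
    have h9 := nb_le_ad (G := G) (A := A) hv
    have h10 := nb_le_erase (G := G) hv
    omega

/-- the sizes of the closed sets -/
theorem sizes (hG : G.Connected) (h2 : ∀ v, 2 ≤ G.degree v) {k d : ℕ}
    (hm : #G.edgeFinset = 2 * k) (hn : Fintype.card V + d = #G.edgeFinset)
    (hn2 : #{v | G.degree v = 2} = k)
    {A : Finset V} {F : Finset (Finset V)} (hA : A.Nonempty) (hP : Part G A F)
    (hF : #F = #A + d) (hq : ∀ O ∈ F, ex G O + ad G O A = 2) :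
    (∀ O ∈ F, #O = 1 + 2 * ex G O ∧ ex G O ≤ 1 ∧ 1 ≤ ad G O A) ∧
      ∑ O ∈ F, (1 + ex G O) = k := by
  obtain ⟨hne, hdisj, hcl, hun⟩ := hP
  have hd : Set.PairwiseDisjoint (F : Set (Finset V)) id := by
    intro O hO O' hO' hne
    exact hdisj O hO O' hO' hne
  have had : ∀ O ∈ F, 1 ≤ ad G O A := fun O hO => ad_pos hG hA (hne O hO) (hcl O hO)
  have hex : ∀ O ∈ F, ex G O ≤ 1 := by
    intro O hO
    have h3 := had O hO
    have h4 := hq O hO
    omega
  have e5 : #(univ \ A) = ∑ O ∈ F, #O := by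
    rw [hun, card_biUnion (fun O hO O' hO' hne => hd hO hO' hne)]
    rfl
  have e6 : #(univ \ A) + #A = Fintype.card V := by
    rw [card_sdiff_add_card_eq_card (subset_univ A), card_univ]
  have e7 : ∑ O ∈ F, #{v ∈ O | G.degree v = 2} ≤ k := by
    have h3 : #(F.biUnion (fun O => {v ∈ O | G.degree v = 2})) =
        ∑ O ∈ F, #{v ∈ O | G.degree v = 2} := by
      apply card_biUnion
      intro O hO O' hO' hne'
      exact disjoint_filter_filter (hdisj O hO O' hO' hne')
    rw [← h3, ← hn2]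
    apply card_le_card
    intro v hv
    obtain ⟨O, hO, hv⟩ := mem_biUnion.1 hv
    exact mem_filter.2 ⟨mem_univ _, (mem_filter.1 hv).2⟩
  have e8 : ∑ O ∈ F, #O = ∑ O ∈ F, #{v ∈ O | G.degree v = 2} + ∑ O ∈ F, ex G O := by
    rw [← sum_add_distrib]
    exact sum_congr rfl (fun O hO => (n2_of_ex h2 (hex O hO)).symm)
  have hle : ∀ O ∈ F, 1 + 2 * ex G O ≤ #O :=
    fun O hO => card_ge_of_ex (hne O hO) (hcl O hO) (hq O hO) (had O hO)
  have e9 : ∑ O ∈ F, (1 + 2 * ex G O) ≤ ∑ O ∈ F, #O := sum_le_sum hle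
  have e10 : ∑ O ∈ F, (1 + 2 * ex G O) = #F + 2 * ∑ O ∈ F, ex G O := by
    rw [sum_add_distrib, ← mul_sum, card_eq_sum_ones]
  have e11 : ∑ O ∈ F, (1 + ex G O) = #F + ∑ O ∈ F, ex G O := by
    rw [sum_add_distrib, card_eq_sum_ones]
  have e12 : ∑ O ∈ F, (1 + 2 * ex G O) = ∑ O ∈ F, #O := by omega
  refine ⟨fun O hO => ⟨?_, hex O hO, had O hO⟩, by omega⟩
  exact ((sum_eq_sum_iff_of_le hle).1 e12 O hO).symm

end Pool.Agent.H891.EC
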