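import Pool.Agent.H891.EC.Count

set_option linter.unusedSectionVars false
set_option linter.unusedVariables false

namespace Pool.Agent.H891.EC

open Finset

variable {V : Type} [Fintype V] [DecidableEq V]
variable {G : SimpleGraph V} [DecidableRel G.Adj]

/-- vertex covers -/
def vc (G : SimpleGraph V) [DecidableRel G.Adj] : Finset (Finset V) :=
  {A | ∀ e ∈ G.edgeFinset, ∃ v ∈ A, v ∈ e}

theorem sign_sum : ∑ S ∈ covers G, (-1 : ℤ) ^ #S = ∑ A ∈ vc G, (-1 : ℤ) ^ #A := by
  have h1 : ∑ S ∈ covers G, (-1 : ℤ) ^ #S = ∑ S ∈ G.edgeFinset.powerset, ∑ A : Finset V,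
      if (∀ v ∈ A, ∀ e ∈ S, v ∉ e) then (-1 : ℤ) ^ #A * (-1) ^ #S else 0 := by
    unfold covers
    rw [sum_filter]
    refine sum_congr rfl fun S _ => ?_
    set U : Finset V := {v | ∀ e ∈ S, v ∉ e} with hU
    have h2 : (∑ A : Finset V, if (∀ v ∈ A, ∀ e ∈ S, v ∉ e) then (-1 : ℤ) ^ #A * (-1) ^ #S else 0) =
        (∑ A ∈ U.powerset, (-1 : ℤ) ^ #A) * (-1) ^ #S := by
      rw [← sum_filter, sum_mul]
      refine sum_congr ?_ fun _ _ => rfl
      ext A
      simp only [mem_filter, mem_univ, true_and, mem_powerset, subset_iff, hU]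
    rw [h2, sum_powerset_neg_one_pow_card]
    have h4 : IsEdgeCovering S ↔ U = ∅ := by
      simp only [IsEdgeCovering, hU, filter_eq_empty_iff, mem_univ, true_implies]
      push Not
      constructor
      · intro h v; exact h v
      · intro h v; exact @h v
    by_cases h5 : U = ∅
    · rw [if_pos h5, if_pos (h4.mpr h5), one_mul]
    · rw [if_neg h5, if_neg (fun h => h5 (h4.mp h)), zero_mul]
  rw [h1, sum_comm]
  unfold vc
  rw [sum_filter]
  refine sum_congr rfl fun A _ => ?_
  set W : Finset (Sym2 V) := {e ∈ G.edgeFinset | ∀ v ∈ A, v ∉ e} with hW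
  have h2 : (∑ S ∈ G.edgeFinset.powerset, if (∀ v ∈ A, ∀ e ∈ S, v ∉ e) then
      (-1 : ℤ) ^ #A * (-1) ^ #S else 0) = (-1 : ℤ) ^ #A * ∑ S ∈ W.powerset, (-1) ^ #S := by
    rw [← sum_filter, mul_sum]
    refine sum_congr ?_ fun _ _ => rfl
    ext S
    simp only [mem_filter, mem_powerset, subset_iff, hW]
    constructor
    · rintro ⟨h, h'⟩ e he
      exact ⟨h he, fun v hv => h' v hv e he⟩
    · intro h
      exact ⟨fun e he => (h he).1, fun v hv e he => (h he).2 v hv⟩
  rw [h2, sum_powerset_neg_one_pow_card]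
  have h4 : (∀ e ∈ G.edgeFinset, ∃ v ∈ A, v ∈ e) ↔ W = ∅ := by
    rw [hW, filter_eq_empty_iff]
    push Not
    rfl
  by_cases h5 : W = ∅
  · rw [if_pos h5, if_pos (h4.mpr h5), mul_one]
  · rw [if_neg h5, if_neg (fun h => h5 (h4.mp h)), mul_zero]

theorem small_nonneg (hn : Fintype.card V = 5) (hm : #G.edgeFinset = 6) :
    0 ≤ ∑ A ∈ vc G, (-1 : ℤ) ^ #A := by
  have h : ∀ A ∈ vc G, #A ∈ range 6 := by
    intro A _
    have := card_le_univ A
    rw [mem_range]; omega
  rw [← sum_fiberwise_of_maps_to h]
  have h1 : ∀ j, ∑ A ∈ vc G with #A = j, (-1 : ℤ) ^ #A =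
      (-1) ^ j * (#{A ∈ vc G | #A = j} : ℤ) := by
    intro j
    rw [card_eq_sum_ones, Nat.cast_sum, mul_sum]
    refine sum_congr rfl fun A hA => ?_
    rw [(mem_filter.1 hA).2]; simp
  rw [sum_congr rfl (fun j _ => h1 j)]
  rw [sum_range_succ, sum_range_succ, sum_range_succ, sum_range_succ, sum_range_succ,
    sum_range_succ, sum_range_zero]
  have c5 : #{A ∈ vc G | #A = 5} ≤ 1 := by
    have h2 : {A ∈ vc G | #A = 5} ⊆ powersetCard 5 univ := by
      intro A hA
      rw [mem_powersetCard]
      exact ⟨subset_univ _, (mem_filter.1 hA).2⟩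
    have h3 := card_le_card h2
    rwa [card_powersetCard, card_univ, hn] at h3
  have c4 : 5 ≤ #{A ∈ vc G | #A = 4} := by
    have h2 : powersetCard 4 univ ⊆ {A ∈ vc G | #A = 4} := by
      intro A hA
      rw [mem_powersetCard] at hA
      rw [mem_filter]
      refine ⟨?_, hA.2⟩
      unfold vc
      rw [mem_filter]
      refine ⟨mem_univ _, fun e he => ?_⟩
      induction e using Sym2.ind with
      | _ x y =>
        have hxy : G.Adj x y := SimpleGraph.mem_edgeFinset.1 he
        by_contra hcon
        push Not at hcon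
        have hx : x ∉ A := fun h => hcon x h (Sym2.mem_mk_left _ _)
        have hy : y ∉ A := fun h => hcon y h (Sym2.mem_mk_right _ _)
        have h3 : #(insert x (insert y A)) = 6 := by
          rw [card_insert_of_notMem, card_insert_of_notMem hy, hA.2]
          rw [mem_insert]
          rintro (h | h)
          · exact hxy.ne h
          · exact hx h
        have := card_le_univ (insert x (insert y A))
        omega
    have h3 := card_le_card h2
    rwa [card_powersetCard, card_univ, hn] at h3
  have c3 : #{A ∈ vc G | #A = 3} ≤ 4 := by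
    set Im : Finset (Finset V) := G.edgeFinset.image (fun e => ({v | v ∉ e} : Finset V)) with hIm
    have hinj : Set.InjOn (fun e : Sym2 V => ({v | v ∉ e} : Finset V)) (G.edgeFinset : Set (Sym2 V)) := by
      intro e _ e' _ heq
      apply Sym2.ext
      intro x
      have h2 : x ∈ ({v | v ∉ e} : Finset V) ↔ x ∈ ({v | v ∉ e'} : Finset V) := by
        exact iff_of_eq (congrArg (fun T => x ∈ T) heq)
      rw [mem_filter, mem_filter] at h2
      simp only [mem_univ, true_and] at h2
      tauto
    have hcIm : #Im = 6 := by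
      rw [hIm, card_image_of_injOn hinj, hm]
    have hdis : Disjoint {A ∈ vc G | #A = 3} Im := by
      rw [disjoint_left]
      intro A hA hA'
      rw [hIm, mem_image] at hA'
      obtain ⟨e, he, rfl⟩ := hA'
      have h2 := (mem_filter.1 hA).1
      unfold vc at h2
      rw [mem_filter] at h2
      obtain ⟨v, hv, hve⟩ := h2.2 e he
      rw [mem_filter] at hv
      exact hv.2 hve
    have hsub : {A ∈ vc G | #A = 3} ∪ Im ⊆ powersetCard 3 univ := by
      intro A hA
      rw [mem_powersetCard]
      refine ⟨subset_univ _, ?_⟩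
      rcases mem_union.1 hA with h2 | h2
      · exact (mem_filter.1 h2).2
      · rw [hIm, mem_image] at h2
        obtain ⟨e, he, rfl⟩ := h2
        induction e using Sym2.ind with
        | _ x y =>
          have hxy : G.Adj x y := SimpleGraph.mem_edgeFinset.1 he
          have h3 : ({v | v ∉ s(x, y)} : Finset V) = ({x, y} : Finset V)ᶜ := by
            ext v
            simp
          rw [h3, card_compl, hn, card_pair hxy.ne]
    have h3 := card_le_card hsub
    rw [card_union_of_disjoint hdis, card_powersetCard, card_univ, hn, hcIm] at h3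
    have h4 : Nat.choose 5 3 = 10 := by decide
    omega
  have c1 : #{A ∈ vc G | #A = 1} = 0 := by
    rw [card_eq_zero, filter_eq_empty_iff]
    intro A hA hA1
    obtain ⟨v, rfl⟩ := card_eq_one.1 hA1
    unfold vc at hA
    rw [mem_filter] at hA
    have h2 : G.edgeFinset ⊆ G.incidenceFinset v := by
      intro e he
      obtain ⟨w, hw, hwe⟩ := hA.2 e he
      rw [mem_singleton] at hw
      rw [SimpleGraph.mem_incidenceFinset]
      exact ⟨SimpleGraph.mem_edgeFinset.1 he, hw ▸ hwe⟩
    have h3 := card_le_card h2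
    rw [SimpleGraph.card_incidenceFinset_eq_degree, hm] at h3
    have := G.degree_lt_card_verts v
    omega
  generalize #{A ∈ vc G | #A = 5} = n5 at c5 ⊢
  generalize #{A ∈ vc G | #A = 4} = n4 at c4 ⊢
  generalize #{A ∈ vc G | #A = 3} = n3 at c3 ⊢
  generalize #{A ∈ vc G | #A = 2} = n2
  generalize #{A ∈ vc G | #A = 1} = n1 at c1 ⊢
  generalize #{A ∈ vc G | #A = 0} = n0
  norm_num
  omega

/-- t = 2 and m - n at most one -/
theorem case_small (h2 : ∀ v, 2 ≤ G.degree v) {k d : ℕ} (hk : 1 ≤ k)
    (hm : #G.edgeFinset = 2 * k) (hn : Fintype.card V + d = #G.edgeFinset) (hd : d ≤ 1)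
    (hn2 : #{v | G.degree v = 2} = k) : ∑ S ∈ covers G, (-1 : ℤ) ^ #S ≠ (-1) ^ k := by
  have h3 : 3 * Fintype.card V ≤ 2 * #G.edgeFinset + k := by
    rw [← sum_deg, ← hn2, card_filter, ← sum_add_distrib, mul_comm, ← smul_eq_mul, ← card_univ,
      ← sum_const]
    refine sum_le_sum (fun v _ => ?_)
    have := h2 v
    split_ifs <;> omega
  have hpos : 1 ≤ Fintype.card V := by omega
  have h4 : G.edgeFinset.card ≤ (Fintype.card V).choose 2 := G.card_edgeFinset_le_card_choose_two
  have hcase : k = 3 ∧ Fintype.card V = 5 ∧ #G.edgeFinset = 6 := by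
    have hk3 : k ≤ 3 := by omega
    interval_cases k
    · have h5 : Fintype.card V ≤ 1 ∨ Fintype.card V = 2 := by omega
      rcases h5 with h5 | h5
      · have h6 : Fintype.card V = 1 := by omega
        rw [h6] at h4
        have : Nat.choose 1 2 = 0 := by decide
        omega
      · rw [h5] at h4
        have : Nat.choose 2 2 = 1 := by decide
        omega
    · have h5 : Fintype.card V = 3 := by omega
      rw [h5] at h4
      have : Nat.choose 3 2 = 3 := by decide
      omega
    · omega
  obtain ⟨hk3, hn5, hm6⟩ := hcase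
  intro h
  have h5 := small_nonneg hn5 hm6
  rw [← sign_sum, h, hk3] at h5
  norm_num at h5

end Pool.Agent.H891.EC
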