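import Pool.Agent.H891.EC.Cov

set_option linter.unusedSectionVars false
set_option linter.unusedVariables false

namespace Pool.Agent.H891.EC

open Finset

variable {V : Type} [Fintype V] [DecidableEq V]
variable {G : SimpleGraph V} [DecidableRel G.Adj]

/-- a partition of the complement of A into closed sets -/
def Part (G : SimpleGraph V) (A : Finset V) (F : Finset (Finset V)) : Prop :=
  (∀ O ∈ F, O.Nonempty) ∧ (∀ O ∈ F, ∀ O' ∈ F, O ≠ O' → Disjoint O O') ∧
    (∀ O ∈ F, Closed G A O) ∧ univ \ A = F.biUnion id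

theorem extend {A : Finset V} {F : Finset (Finset V)} (hodd : ∀ O ∈ F, Odd #O)
    (hdisj : ∀ O ∈ F, ∀ O' ∈ F, O ≠ O' → Disjoint O O') (hcl : ∀ O ∈ F, Closed G A O) :
    ∃ F', Part G A F' ∧ #F ≤ #F' ∧ #F' ≤ #F + 1 ∧
      (#F' = #F → Even (Fintype.card V + #A + #F)) := by
  have hne : ∀ O ∈ F, O.Nonempty := by
    intro O hO
    obtain ⟨t, ht⟩ := hodd O hO
    exact card_pos.1 (by omega)
  have hd : Set.PairwiseDisjoint (F : Set (Finset V)) id := by
    intro O hO O' hO' hne
    exact hdisj O hO O' hO' hne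
  set R := (univ \ A) \ F.biUnion id with hR
  by_cases hRe : R = ∅
  · have hun : univ \ A = F.biUnion id := by
      apply Subset.antisymm
      · exact sdiff_eq_empty_iff_subset.1 hRe
      · intro x hx
        rw [mem_biUnion] at hx
        obtain ⟨O, hO, hx⟩ := hx
        rw [mem_sdiff]
        exact ⟨mem_univ _, disjoint_left.1 (hcl O hO).1 hx⟩
    refine ⟨F, ⟨hne, hdisj, hcl, hun⟩, le_rfl, Nat.le_succ _, fun _ => ?_⟩
    have e5 : #(univ \ A) = ∑ O ∈ F, #O := by
      rw [hun, card_biUnion (fun O hO O' hO' hne => hd hO hO' hne)]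
      rfl
    have e6 : #(univ \ A) + #A = Fintype.card V := by
      rw [card_sdiff_add_card_eq_card (subset_univ A), card_univ]
    have e7 : ∑ O ∈ F, #O = 2 * ∑ O ∈ F, (#O / 2) + #F := by
      rw [mul_sum, card_eq_sum_ones, ← sum_add_distrib]
      refine sum_congr rfl (fun O hO => ?_)
      obtain ⟨t, ht⟩ := hodd O hO
      omega
    rw [Nat.even_iff]
    omega
  · have hRF : R ∉ F := by
      intro h
      obtain ⟨x, hx⟩ := nonempty_iff_ne_empty.2 hRe
      have h1 : x ∈ F.biUnion id := mem_biUnion.2 ⟨R, h, hx⟩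
      exact (mem_sdiff.1 hx).2 h1
    have hRd : ∀ O ∈ F, Disjoint R O := by
      intro O hO
      rw [disjoint_left]
      intro x hx hxO
      exact (mem_sdiff.1 hx).2 (mem_biUnion.2 ⟨O, hO, hxO⟩)
    have hRcl : Closed G A R := by
      refine ⟨?_, ?_⟩
      · rw [disjoint_left]
        intro x hx hxA
        exact (mem_sdiff.1 (mem_sdiff.1 hx).1).2 hxA
      · intro x hx y hxy
        by_contra hcon
        push Not at hcon
        have hy : y ∈ F.biUnion id := by
          by_contra hy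
          exact hcon.1 (mem_sdiff.2 ⟨mem_sdiff.2 ⟨mem_univ _, hcon.2⟩, hy⟩)
        obtain ⟨O, hO, hyO⟩ := mem_biUnion.1 hy
        rcases (hcl O hO).2 y hyO x hxy.symm with h | h
        · exact disjoint_left.1 (hRd O hO) hx h
        · exact (mem_sdiff.1 (mem_sdiff.1 hx).1).2 h
    refine ⟨insert R F, ⟨?_, ?_, ?_, ?_⟩, ?_, ?_, ?_⟩
    · intro O hO
      rw [mem_insert] at hO
      rcases hO with rfl | hO
      · exact nonempty_iff_ne_empty.2 hRe
      · exact hne O hO
    · intro O hO O' hO' hn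
      rw [mem_insert] at hO hO'
      rcases hO with rfl | hO
      · rcases hO' with rfl | hO'
        · exact absurd rfl hn
        · exact hRd O' hO'
      · rcases hO' with rfl | hO'
        · exact (hRd O hO).symm
        · exact hdisj O hO O' hO' hn
    · intro O hO
      rw [mem_insert] at hO
      rcases hO with rfl | hO
      · exact hRcl
      · exact hcl O hO
    · rw [biUnion_insert]
      ext x
      simp only [id, mem_union]
      constructor
      · intro hx
        by_cases h : x ∈ F.biUnion id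
        · exact Or.inr h
        · exact Or.inl (mem_sdiff.2 ⟨hx, h⟩)
      · rintro (hx | hx)
        · exact (mem_sdiff.1 hx).1
        · obtain ⟨O, hO, hx⟩ := mem_biUnion.1 hx
          rw [mem_sdiff]
          exact ⟨mem_univ _, disjoint_left.1 (hcl O hO).1 hx⟩
    · rw [card_insert_of_notMem hRF]; omega
    · rw [card_insert_of_notMem hRF]
    · rw [card_insert_of_notMem hRF]; omega

theorem A_nonempty (hG : G.Connected) {l : ℕ} (heven : Even (Fintype.card V + l)) {A : Finset V}
    {F : Finset (Finset V)} (hodd : ∀ O ∈ F, Odd #O) (hcl : ∀ O ∈ F, Closed G A O)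
    (hlt : #A + l < #F) : A.Nonempty := by
  rw [nonempty_iff_ne_empty]
  rintro rfl
  have h1 : ∀ O ∈ F, O = univ := by
    intro O hO
    by_contra hne
    obtain ⟨t, ht⟩ := hodd O hO
    obtain ⟨x, hx, y, hy, hxy⟩ := exists_adj_out hG (card_pos.1 (by omega)) hne
    rcases (hcl O hO).2 x hx y hxy with h | h
    · exact hy h
    · exact notMem_empty _ h
  have h2 : #F ≤ 1 := by
    rw [card_le_one]
    intro a ha b hb
    rw [h1 a ha, h1 b hb]
  rw [card_empty] at hlt
  obtain ⟨O, hO⟩ := card_pos.1 (by omega : 0 < #F)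
  have h3 := hodd O hO
  rw [h1 O hO, card_univ] at h3
  have h4 : l = 0 := by omega
  rw [h4, add_zero] at heven
  exact (Nat.not_even_iff_odd.2 h3) heven

/-- t = 3: the graph is a triangle -/
theorem case_three (hG : G.Connected) (h2 : ∀ v, 2 ≤ G.degree v) {k : ℕ}
    (hm : #G.edgeFinset = 3 * k) (hn : Fintype.card V = #G.edgeFinset)
    (hc : ∀ S ∈ covers G, 2 * k ≤ #S) : k ≤ 1 := by
  by_contra hk
  have h1 : ∀ v, 1 ≤ G.degree v := fun v => (by norm_num : 1 ≤ 2).trans (h2 v)
  obtain ⟨l, hl, heven⟩ : ∃ l, l ≤ 1 ∧ Even (Fintype.card V + l) := by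
    rcases Nat.even_or_odd (Fintype.card V) with h | h
    · exact ⟨0, by omega, h⟩
    · exact ⟨1, le_rfl, h.add_one⟩
  obtain ⟨A, F, hodd, hdisj, hdA, hcl, hlt⟩ := exists_violator h1 hc heven (by omega)
  have hcl' : ∀ O ∈ F, Closed G A O := fun O hO => ⟨hdA O hO, hcl O hO⟩
  have hA := A_nonempty hG heven hodd hcl' hlt
  obtain ⟨F', ⟨hne, hdisj', hclF, hun⟩, h3, h4, -⟩ := extend hodd hdisj hcl'
  have hid := main_identity h2 hdisj' hclF hun
  have hsum : 2 * #F' ≤ ∑ O ∈ F', (ex G O + ad G O A) := by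
    rw [mul_comm, ← smul_eq_mul, ← sum_const]
    exact sum_le_sum (fun O hO => q_ge hG h2 hA (hne O hO) (hclF O hO))
  omega

/-- t = 2, structure -/
theorem case_two_struct (hG : G.Connected) (h2 : ∀ v, 2 ≤ G.degree v) {k d : ℕ}
    (hm : #G.edgeFinset = 2 * k) (hn : Fintype.card V + d = #G.edgeFinset) (hd : 2 ≤ d)
    (hc : ∀ S ∈ covers G, k ≤ #S) :
    ∃ (A : Finset V) (F : Finset (Finset V)), A.Nonempty ∧ Part G A F ∧ #F = #A + d ∧
      ad G A A = 0 ∧ ∀ O ∈ F, ex G O + ad G O A = 2 := by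
  have h1 : ∀ v, 1 ≤ G.degree v := fun v => (by norm_num : 1 ≤ 2).trans (h2 v)
  have heven : Even (Fintype.card V + (d - 2)) := by
    rw [Nat.even_iff]; omega
  obtain ⟨A, F, hodd, hdisj, hdA, hcl, hlt⟩ := exists_violator h1 hc heven (by omega)
  have hcl' : ∀ O ∈ F, Closed G A O := fun O hO => ⟨hdA O hO, hcl O hO⟩
  have hA := A_nonempty hG heven hodd hcl' hlt
  obtain ⟨F', hP, h3, h4, h5⟩ := extend hodd hdisj hcl'
  have hP' := hP
  obtain ⟨hne, hdisj', hclF, hun⟩ := hP'
  have hid := main_identity h2 hdisj' hclF hun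
  have hq : ∀ O ∈ F', 2 ≤ ex G O + ad G O A :=
    fun O hO => q_ge hG h2 hA (hne O hO) (hclF O hO)
  have hsum : 2 * #F' ≤ ∑ O ∈ F', (ex G O + ad G O A) := by
    rw [mul_comm, ← smul_eq_mul, ← sum_const]
    exact sum_le_sum hq
  have hF' : #F' = #A + d := by
    rcases Nat.lt_or_ge #F #F' with h | h
    · omega
    · have h6 : #F' = #F := le_antisymm h h3
      have h7 := h5 h6
      rw [Nat.even_iff] at h7
      omega
  have hsumeq : ∑ O ∈ F', (ex G O + ad G O A) = ∑ O ∈ F', 2 := by
    rw [sum_const, smul_eq_mul]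
    omega
  refine ⟨A, F', hA, hP, hF', by omega, ?_⟩
  intro O hO
  have h6 := (sum_eq_sum_iff_of_le hq).1 hsumeq.symm
  exact (h6 O hO).symm

end Pool.Agent.H891.EC
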